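import Pool.Agent.Helper48.Cons.Comp

set_option autoImplicit false

open Pool.Agent.Helper48.Cons

namespace Pool.Agent.Results.MP_7b05dd_co.ConsecutiveDecidable

/-- **Q1, full answer.** For digraphs, tournaments and partial orders (each with an added linear
order), ordered by consecutive embedding, the atomicity problem and the wqo problem are both
decidable. The input is a finite list of structures, each given by its number `n` of vertices
and the list of the pairs in its relation. -/
theorem result :
    (ComputablePred fun B : List (ℕ × List (ℕ × ℕ)) => IsAtomic (Av IsDigraph B)) ∧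
    (ComputablePred fun B : List (ℕ × List (ℕ × ℕ)) => IsWqo (Av IsDigraph B)) ∧
    (ComputablePred fun B : List (ℕ × List (ℕ × ℕ)) => IsAtomic (Av IsTournament B)) ∧
    (ComputablePred fun B : List (ℕ × List (ℕ × ℕ)) => IsWqo (Av IsTournament B)) ∧
    (ComputablePred fun B : List (ℕ × List (ℕ × ℕ)) => IsAtomic (Av IsPoset B)) ∧
    (ComputablePred fun B : List (ℕ × List (ℕ × ℕ)) => IsWqo (Av IsPoset B)) :=
  ⟨digraph_atomic, digraph_wqo, tournament_atomic, tournament_wqo, poset_atomic, poset_wqo⟩

end Pool.Agent.Results.MP_7b05dd_co.ConsecutiveDecidable
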